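import Pool.Agent.P.MP_2f6447_an.K.Defs2

/-! Definitions for the theorem that the nodal line of a simple second eigenfunction of a convex
domain is not closed. -/

open Set MeasureTheory Filter Topology Complex Metric
open scoped ContDiff ComplexConjugate

namespace Pool.Agent.L2K

/-- second eigenfunction, or zero -/
structure Eig (Ω : Set ℂ) (u : ℂ → ℝ) : Prop where
  lip : Lip0 Ω u
  helm : Helm (lam2c Ω) Ω u

/-- `u` is positive in `Ω` outside a compact subset of `Ω` -/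
def SC (Ω : Set ℂ) (u : ℂ → ℝ) : Prop :=
  ∃ K : Set ℂ, IsCompact K ∧ K ⊆ Ω ∧ ∀ z ∈ Ω, z ∉ K → 0 < u z

/-- every second eigenfunction is a multiple of `u` -/
def Simple (Ω : Set ℂ) (u : ℂ → ℝ) : Prop := ∀ v, Eig Ω v → ∃ c : ℝ, ∀ z, v z = c * u z

/-- each of the two sets contains the other one shrunk by the factor `1 - e` -/
def Near (e : ℝ) (Ω Ω' : Set ℂ) : Prop :=
  ∀ z : ℂ, (z ∈ Ω → ((1 - e : ℝ) : ℂ) * z ∈ Ω') ∧ (z ∈ Ω' → ((1 - e : ℝ) : ℂ) * z ∈ Ω)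

/-- a sequence of convex domains that converges to `Ω` -/
structure Conv (Ω : Set ℂ) (O : ℕ → Set ℂ) : Prop where
  dom : Dom Ω
  zero : (0 : ℂ) ∈ Ω
  doms : ∀ k, Dom (O k)
  near : ∃ e : ℕ → ℝ, Tendsto e atTop (𝓝 0) ∧ ∀ k, Near (e k) Ω (O k)

/-- near `p` the set is the half plane with outer normal `ν` -/
def Flat (Ω : Set ℂ) (p ν : ℂ) : Prop := ‖ν‖ = 1 ∧ ∀ᶠ z in 𝓝 p, (z ∈ Ω ↔ dot (z - p) ν < 0)

/-- the derivative of `u` at `p` in the inward directions is not negative -/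
def NNat (u : ℂ → ℝ) (p : ℂ) : Prop := ∀ ε : ℝ, 0 < ε → ∀ᶠ z in 𝓝 p, -(ε * ‖z - p‖) ≤ u z

/-- nonnegative inner normal derivative at all flat points -/
def NN (Ω : Set ℂ) (u : ℂ → ℝ) : Prop := ∀ p ν, Flat Ω p ν → NNat u p

/-- the open sector `0 < arg < α`, for `0 < α ≤ π` -/
def Sec (α : ℝ) : Set ℂ := {w | 0 < w.im ∧ 0 < (exp (α * I) * conj w).im}

/-- `rot α * z ∈ Sec α` describes the sector that is symmetric in the imaginary axis -/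
noncomputable def rot (α : ℝ) : ℂ := exp ((-((Real.pi - α) / 2) : ℝ) * I)

/-- convex domain that is a sector near each boundary point -/
structure Poly (Ω : Set ℂ) : Prop extends Dom Ω where
  sec : ∀ p ∈ frontier Ω, ∃ (ρ α : ℝ) (a : ℂ), 0 < ρ ∧ 0 < α ∧ α ≤ Real.pi ∧ ‖a‖ = 1 ∧
    ∀ w : ℂ, ‖w‖ < ρ → (sim p a w ∈ Ω ↔ w ∈ Sec α)

/-- Lipschitz solution in a sector with zero values on the sides -/
structure SecD (α R lam : ℝ) (w : ℂ → ℝ) : Prop where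
  pos : 0 < α
  le : α ≤ Real.pi
  rad : 0 < R
  lam0 : 0 ≤ lam
  small : lam * R ^ 2 ≤ 1
  lip : ∃ K, LipschitzWith K w
  helm : Helm lam (Sec α ∩ ball 0 R) w
  zero : ∀ z ∈ ball (0 : ℂ) R, z ∉ Sec α → w z = 0

/-- the exponent -/
noncomputable def ex (α : ℝ) (k : ℕ) : ℝ := k * (Real.pi / α)

/-- sine coefficient on the arc of radius `r` -/
noncomputable def sc (w : ℂ → ℝ) (α : ℝ) (k : ℕ) (r : ℝ) : ℝ :=
  ∫ θ in (0 : ℝ)..α, w (r * exp (θ * I)) * Real.sin (ex α k * θ)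

/-- leading term at the vertex -/
structure Ld (α : ℝ) (w : ℂ → ℝ) (k : ℕ) (c : ℝ) : Prop where
  one : 1 ≤ k
  ne : c ≠ 0
  est : ∃ C ρ : ℝ, 0 ≤ C ∧ 0 < ρ ∧ ∀ r ∈ Ioo 0 ρ, ∀ θ ∈ Icc 0 α,
    |w (r * exp (θ * I)) - c * r ^ ex α k * Real.sin (ex α k * θ)| ≤
      C * r ^ (ex α k + 1) * Real.sin (ex α 1 * θ)

/-- finite set of unit vectors, symmetric in the imaginary axis, `η`-dense in the circle -/
structure Net (η : ℝ) (N : Finset ℂ) : Prop where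
  le : η ≤ 1 / 2
  unit : ∀ ν ∈ N, ‖ν‖ = 1
  sym : ∀ ν ∈ N, rf 0 1 ν ∈ N
  dense : ∀ μ : ℂ, ‖μ‖ = 1 → ∃ ν ∈ N, ‖μ - ν‖ ≤ η

/-- polygon with normals in `N` and support numbers `h` -/
def pol (N : Finset ℂ) (h : ℂ → ℝ) : Set ℂ := {z | ∀ ν ∈ N, dot z ν < h ν}

/-- eigenfunction, `C¹` up to the boundary, gradient a nonpositive multiple of every outer normal -/
structure Tame (Ω : Set ℂ) (u : ℂ → ℝ) : Prop extends Dom Ω, Eig Ω u where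
  cont : ContinuousOn (Gr Ω u) (closure Ω)
  eq : ∀ z ∈ Ω, Gr Ω u z = grad u z
  fr : ∀ p ∈ frontier Ω, ∀ ν, IsN Ω p ν → ∃ γ : ℝ, γ ≤ 0 ∧ Gr Ω u p = γ * ν
  side : ∀ σ : ℝ, σ = 1 ∨ σ = -1 → ∃ p ∈ frontier Ω, 0 < σ * (Gr Ω u p).re

/-- the family of solutions of the translation trick -/
noncomputable def Wt (Ω : Set ℂ) (u : ℂ → ℝ) (σ t : ℝ) (z : ℂ) : ℝ := σ * (Gr Ω u z).re + t * u z

/-- germ of a ray from the origin on which `0 < u` and `σ u_x` dominates `u` -/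
structure Ray (Ω : Set ℂ) (u : ℂ → ℝ) (σ : ℝ) (a : ℂ) : Prop where
  mem : ∀ᶠ r : ℝ in 𝓝[>] 0, r * a ∈ Ω ∧ 0 < u (r * a)
  dom : ∀ T : ℝ, ∀ᶠ r : ℝ in 𝓝[>] 0, T * u (r * a) < σ * (grad u (r * a)).re

/-- the component of the positive set that contains the germ reaches a boundary point where the
data are positive -/
def Reach (Ω : Set ℂ) (u : ℂ → ℝ) (σ : ℝ) (a : ℂ) (t : ℝ) : Prop :=
  ∃ r : ℝ, 0 < r ∧ (∀ s ∈ Ioc (0 : ℝ) r, s * a ∈ Ω ∧ 0 < Wt Ω u σ t (s * a)) ∧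
    ∃ p ∈ frontier Ω, 0 < Wt Ω u σ t p ∧ ∃ ρ : ℝ, 0 < ρ ∧
      Ω ∩ ball p ρ ⊆ connectedComponentIn {x | x ∈ Ω ∧ 0 < Wt Ω u σ t x} (r * a)

end Pool.Agent.L2K
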