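import Pool.Agent.P.MP_2f6447_an.M.Defs
import Pool.Agent.P.MP_2f6447_an.K.Two2
import Pool.Agent.P.MP_2f6447_an.K.Inv

/-! Second eigenfunctions of an arbitrary convex domain; converging domains. Hints. `exists_eig`: as
`exists_mn`. `Eig.exists_neg`: `exists_first`; `u1` has no zero in `Ω` (`First_zero`), hence a
sign; orthogonality as in `First.orth`; if `0 ≤ u` then `u * u1` has a sign and integral zero.
`Eig.preconn_neg`: two different components of `{u < 0}` and `two_domains` with `V = Ω` give `u = 0`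
outside them, against `exists_pos`. `lam2c_mono`: `RSc Ω ⊆ RSc Ω'`, `WEig_ne`, the set is bounded
below by `0` (see `lam2c_nonneg`). `Near.lam_le`: `sim 0 (1 - e)⁻¹ ⁻¹' Ω ⊆ Ω'`, `lam2c_sim`.
`Conv.fill`: a thickening of `K` lies in `Ω`, so `z / (1 - e) ∈ Ω` for all `z ∈ K` and small `e`. -/

open Set MeasureTheory Filter Topology Complex Metric
open scoped ContDiff ComplexConjugate

namespace Pool.Agent.L2K

variable {Ω Ω' U : Set ℂ} {O : ℕ → Set ℂ} {lam α R c : ℝ} {u v w f g : ℂ → ℝ} {k : ℕ}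

theorem exists_eig (h : Dom Ω) : ∃ u, Eig Ω u ∧ ∫ z, u z ^ 2 = 1 := by sorry
theorem Eig.smul (h : Eig Ω u) (c : ℝ) : Eig Ω fun z => c * u z := by sorry
theorem Eig.add (hu : Eig Ω u) (hv : Eig Ω v) : Eig Ω fun z => u z + v z := by sorry
theorem Eig.neg (h : Eig Ω u) : Eig Ω fun z => -u z := by sorry
theorem Eig.of_sim (h : Eig Ω u) (p : ℂ) {a : ℂ} (ha : a ≠ 0) :
    Eig (sim p a ⁻¹' Ω) fun z => u (sim p a z) := by sorry
theorem Eig.of_rf (h : Eig Ω u) (M : ℂ) {n : ℂ} (hn : ‖n‖ = 1) (hs : rf M n ⁻¹' Ω = Ω) :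
    Eig Ω fun z => u (rf M n z) := by sorry
theorem Simple.of_sim (h : Simple Ω u) (p : ℂ) {a : ℂ} (ha : a ≠ 0) :
    Simple (sim p a ⁻¹' Ω) fun z => u (sim p a z) := by sorry
theorem Eig.sq_pos (hΩ : Dom Ω) (h : Eig Ω u) (hne : ∃ z, u z ≠ 0) : 0 < ∫ z, u z ^ 2 := by sorry
theorem Eig.normalise (hΩ : Dom Ω) (h : Eig Ω u) (hne : ∃ z, u z ≠ 0) :
    ∃ c : ℝ, 0 < c ∧ ∫ z, (c * u z) ^ 2 = 1 := by sorry
theorem Eig.exists_neg (hΩ : Dom Ω) (h : Eig Ω u) (hne : ∃ z, u z ≠ 0) : ∃ z ∈ Ω, u z < 0 := by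
  sorry
theorem Eig.exists_pos (hΩ : Dom Ω) (h : Eig Ω u) (hne : ∃ z, u z ≠ 0) : ∃ z ∈ Ω, 0 < u z := by
  sorry
theorem Eig.preconn_neg (hΩ : Dom Ω) (h : Eig Ω u) : IsPreconnected {z | u z < 0} := by sorry
theorem Eig.preconn_pos (hΩ : Dom Ω) (h : Eig Ω u) : IsPreconnected {z | 0 < u z} := by sorry
theorem lam2c_mono (h : Dom Ω) (hs : Ω ⊆ Ω') : lam2c Ω' ≤ lam2c Ω := by sorry
theorem Near.lam_le {e : ℝ} (h : Near e Ω Ω') (hΩ : Dom Ω) (hΩ' : Dom Ω') (he : e < 1) :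
    (1 - e) ^ 2 * lam2c Ω' ≤ lam2c Ω ∧ (1 - e) ^ 2 * lam2c Ω ≤ lam2c Ω' := by sorry
theorem Conv.const (h : Dom Ω) (h0 : (0 : ℂ) ∈ Ω) : Conv Ω fun _ => Ω := by sorry
theorem Conv.subseq (h : Conv Ω O) {φ : ℕ → ℕ} (hφ : StrictMono φ) : Conv Ω fun k => O (φ k) := by
  sorry
theorem Conv.lam_lim (h : Conv Ω O) : Tendsto (fun k => lam2c (O k)) atTop (𝓝 (lam2c Ω)) := by sorry
theorem Conv.lam_bdd (h : Conv Ω O) : ∃ Λ, ∀ k, lam2c (O k) ≤ Λ := by sorry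
theorem Conv.fill (h : Conv Ω O) {K : Set ℂ} (hK : IsCompact K) (hs : K ⊆ Ω) :
    ∀ᶠ k in atTop, K ⊆ O k := by sorry
theorem Conv.out (h : Conv Ω O) {z : ℂ} (hz : z ∉ Ω) {s : ℝ} (hs : 1 < s) :
    ∀ᶠ k in atTop, (s : ℂ) * z ∉ O k := by sorry
theorem Conv.bdd (h : Conv Ω O) : ∃ R : ℝ, 0 < R ∧ ∀ k, O k ⊆ ball 0 R := by sorry

end Pool.Agent.L2K
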