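import Pool.Agent.P.MP_2f6447_an.M.Defs
import Pool.Agent.P.MP_2f6447_an.K.Refl
import Pool.Agent.P.MP_2f6447_an.K.Limit
import Pool.Agent.P.MP_2f6447_an.K.Geo1

/-! Flat boundary points. Hints. `sim p (-I * ν)` maps the lower half plane to the side of `Ω`
(`dot (-I * ν * z) ν = im z`); `F = oddE (u ∘ sim p (-I * ν))` is Lipschitz with the same constant
(`lipschitz_oddE`; the whole line lies outside `Ω` by `Flat.isN`) and a solution in a disc about `0`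
(`helm_oddE`, `Helm.of_sim`); `F = 0` on the real axis, so `grad F` is a multiple of `I` there.
`Flat.isN`: for `z ∈ Ω` and `q ∈ Ω`, shrink towards `p` (`Dom.combo_mem`). `Flat.lim`: see
`Mn.lim_flat`; the sign from `NNat` along `p - s ν`. `Flat.cauchy`: `cauchy_zero`, `uc`.
`flat_quad`: `Limit_D_lip` for `F` with `e = z / ‖z‖` and the mean value theorem on the segment
from `0` to `z`; `D e F 0 ≥ 0` for `im e ≤ 0`; outside `Ω` the function is zero.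
`nn_limit`: `flat_quad` with `q k`, pass to the limit at fixed `z ∈ ball p s`. -/

open Set MeasureTheory Filter Topology Complex Metric
open scoped ContDiff ComplexConjugate

namespace Pool.Agent.L2K

variable {Ω Ω' U : Set ℂ} {O : ℕ → Set ℂ} {lam α R c : ℝ} {u v w f g : ℂ → ℝ} {k : ℕ}

variable {p ν : ℂ}

theorem Flat.notMem (h : Flat Ω p ν) : p ∉ Ω := by sorry
theorem Flat.mem_frontier (h : Flat Ω p ν) : p ∈ frontier Ω := by sorry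
theorem Flat.isN (hΩ : Dom Ω) (h : Flat Ω p ν) : IsN Ω p ν := by sorry
theorem Flat.unique (h : Flat Ω p ν) {ν' : ℂ} (hN : IsN Ω p ν') : ν' = ν := by sorry
theorem Flat.congr (h : Flat Ω p ν) (e : ∀ᶠ z in 𝓝 p, z ∈ Ω' ↔ z ∈ Ω) : Flat Ω' p ν := by sorry
theorem Flat.near (h : Flat Ω p ν) : ∀ᶠ q in 𝓝 p, q ∈ frontier Ω → Flat Ω q ν := by sorry
theorem flat_sim (p : ℂ) {a : ℂ} (ha : ‖a‖ = 1) (z ν : ℂ) :
    Flat (sim p a ⁻¹' Ω) z ν ↔ Flat Ω (sim p a z) (a * ν) := by sorry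
theorem nnat_sim (p : ℂ) {a : ℂ} (ha : ‖a‖ = 1) (z : ℂ) :
    NNat (fun x => u (sim p a x)) z ↔ NNat u (sim p a z) := by sorry
theorem NN.of_sim (h : NN Ω u) (p : ℂ) {a : ℂ} (ha : ‖a‖ = 1) :
    NN (sim p a ⁻¹' Ω) fun z => u (sim p a z) := by sorry
theorem SC.nn (hu : Lip0 Ω u) (h : SC Ω u) : NN Ω u := by sorry
theorem Flat.lim (hΩ : Dom Ω) (hu : Lip0 Ω u) (hH : Helm lam Ω u) (hl : 0 ≤ lam) (h : Flat Ω p ν) :
    ∃ γ : ℝ, Tendsto (grad u) (𝓝[Ω] p) (𝓝 (γ * ν)) ∧ (NNat u p → γ ≤ 0) := by sorry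
theorem Flat.cauchy (hΩ : Dom Ω) (hu : Lip0 Ω u) (hH : Helm lam Ω u) (hl : 0 ≤ lam)
    (h : Flat Ω p ν) (h0 : ∀ᶠ q in 𝓝 p, q ∈ frontier Ω → Tendsto (grad u) (𝓝[Ω] q) (𝓝 0)) :
    ∀ z, u z = 0 := by sorry
theorem flat_quad (K : NNReal) (Λ : ℝ) {ρ : ℝ} (hρ : 0 < ρ) : ∃ C s : ℝ, 0 ≤ C ∧ 0 < s ∧
    ∀ (Ω : Set ℂ) (u : ℂ → ℝ) (μ : ℝ) (p ν : ℂ), Dom Ω → LipschitzWith K u →
      (∀ z, z ∉ Ω → u z = 0) → Helm μ Ω u → 0 ≤ μ → μ ≤ Λ → ‖ν‖ = 1 →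
      (∀ z ∈ ball p ρ, z ∈ Ω ↔ dot (z - p) ν < 0) → NNat u p →
      ∀ z ∈ ball p s, -(C * ‖z - p‖ ^ 2) ≤ u z := by sorry
theorem nn_limit {K : NNReal} {Λ ρ : ℝ} {F : ℕ → ℂ → ℝ} {q : ℕ → ℂ} (hρ : 0 < ρ) (hν : ‖ν‖ = 1)
    (hO : ∀ k, Dom (O k)) (hF : ∀ k, LipschitzWith K (F k)) (hE : ∀ k, Eig (O k) (F k))
    (hΛ : ∀ k, lam2c (O k) ≤ Λ) (hN : ∀ k, NN (O k) (F k)) (hq : Tendsto q atTop (𝓝 p))
    (hf : ∀ᶠ k in atTop, ∀ z ∈ ball (q k) ρ, z ∈ O k ↔ dot (z - q k) ν < 0)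
    (hw : ∀ z, Tendsto (fun k => F k z) atTop (𝓝 (w z))) : NNat w p := by sorry

end Pool.Agent.L2K
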