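import Pool.Agent.P.MP_2f6447_an.M.Reach1

/-! The translation trick, second part; the symmetric case. Hints. `reach_not_both`: let `p` (for `a`,
`0 < re Gr p`) and `q` (for `rf 0 1 a = -conj a`, `re Gr q < 0`) be the frontier points. By `fr`
with `nu`: `re (nu p) < 0 < re (nu q)`, so `p - s` and `q + s` are outside `closure Ω` for `s > 0`
(`IsN.le_of_closure`); `0 < im p`, `0 < im q`, since otherwise `-I` is a normal and `re Gr = 0`.
Take paths from the ray points to `p`, `q` (`cmp_path`, `attach`); their ranges are compact and lie
in `im > ε`. Add the ray pieces from height `ε` and the horizontal segments from `p` to the left up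
to `re = L` and from `q` to the right up to `re = -L`. Apply `cross_RL` to the conjugate images
(`d = -ε`). A common point in `closure Ω` has `Wt 1 t > 0` and `< 0`; a common point outside lies
on both segments, between `q` and `p`, hence in the convex set `closure Ω`. `fork_false`: the two
open sets cover the connected line, are disjoint and not empty. `payne`: `re Gr` is odd under
`rf 0 1` on `Ω` (`grad_rf`) and on the closure (continuity); at a frontier point with `0 < re p`
one has `0 ≤ re ν` (the mirror point lies in the closure), so `re Gr p ≤ 0`. If `0 < Wt 1 0 z` with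
`0 < re z`, the component lies in `0 < re` (it misses the axis), `cmp_alt` makes it zero-data, and
so is the component of `rf 0 1 z` for `Wt (-1) (-0)` (same argument on the left); `two_zd`. So
`u_x ≤ 0` on the right half, `u` decreases to `0` along horizontal chords, `0 ≤ u` everywhere,
against `Eig.exists_neg`. -/

open Set MeasureTheory Filter Topology Complex Metric
open scoped ContDiff ComplexConjugate

namespace Pool.Agent.L2K

variable {Ω Ω' U : Set ℂ} {O : ℕ → Set ℂ} {lam α R c : ℝ} {u v w f g : ℂ → ℝ} {k : ℕ}

variable {t : ℝ} {a : ℂ}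

theorem Tame.reach_not_both (h : Tame Ω u) (hup : ∀ z ∈ Ω, 0 < z.im) (h1 : 0 < a.re)
    (h2 : 0 < a.im) (hA : Reach Ω u 1 a t) (hB : Reach Ω u (-1) (rf 0 1 a) (-t)) : False := by sorry
theorem Tame.fork_false (h : Tame Ω u) (hup : ∀ z ∈ Ω, 0 < z.im) (h1 : 0 < a.re) (h2 : 0 < a.im)
    (hA : Ray Ω u 1 a) (hB : Ray Ω u (-1) (rf 0 1 a)) : False := by sorry
theorem Tame.payne (h : Tame Ω u) (hs : rf 0 1 ⁻¹' Ω = Ω) (hu : ∀ z, u (rf 0 1 z) = u z) :
    False := by sorry

end Pool.Agent.L2K
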