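import Pool.Agent.P.MP_2f6447_an.M.Defs
import Pool.Agent.P.MP_2f6447_an.K.Lead

/-! Sine series on `[0, α]`. Hints. `sine_series`: `Lead_fourier` with
`G z = sign (im z) * f (α / π * |arg z|)` (continuous on the circle since `f 0 = f α = 0`;
`|arg z| = arccos (re z)` on the circle avoids `arg`), whose cosine coefficients vanish by oddness;
or apply `has_pointwise_sum_fourier_series_of_summable` to the odd `2 α`-periodic extension.
`abs_sin_ex_le`: induction, `|sin ((k + 1) x)| ≤ |sin (k x)| + |sin x|`. -/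

open Set MeasureTheory Filter Topology Complex Metric
open scoped ContDiff ComplexConjugate

namespace Pool.Agent.L2K

variable {Ω Ω' U : Set ℂ} {O : ℕ → Set ℂ} {lam α R c : ℝ} {u v w f g : ℂ → ℝ} {k : ℕ}

theorem ex_eq (α : ℝ) (k : ℕ) : ex α k = k * ex α 1 := by sorry
theorem one_le_ex_one (h0 : 0 < α) (h1 : α ≤ Real.pi) : 1 ≤ ex α 1 := by sorry
theorem ex_mul_self (h0 : 0 < α) (k : ℕ) : ex α k * α = k * Real.pi := by sorry
theorem one_le_ex (h0 : 0 < α) (h1 : α ≤ Real.pi) (hk : 1 ≤ k) : 1 ≤ ex α k := by sorry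
theorem sin_ex_nonneg (h0 : 0 < α) {θ : ℝ} (hθ : θ ∈ Icc 0 α) : 0 ≤ Real.sin (ex α 1 * θ) := by
  sorry
theorem sin_ex_pos (h0 : 0 < α) {θ : ℝ} (hθ : θ ∈ Ioo 0 α) : 0 < Real.sin (ex α 1 * θ) := by sorry
theorem abs_sin_ex_le (h0 : 0 < α) (k : ℕ) {θ : ℝ} (hθ : θ ∈ Icc 0 α) :
    |Real.sin (ex α k * θ)| ≤ k * Real.sin (ex α 1 * θ) := by sorry
theorem sine_series (h0 : 0 < α) {F : ℝ → ℝ} (hF : Continuous F) (z0 : F 0 = 0) (z1 : F α = 0)
    (hs : Summable fun k : ℕ => ∫ x in (0 : ℝ)..α, F x * Real.sin (ex α k * x)) {θ : ℝ}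
    (hθ : θ ∈ Icc 0 α) :
    HasSum (fun k : ℕ => 2 / α * (∫ x in (0 : ℝ)..α, F x * Real.sin (ex α k * x)) *
      Real.sin (ex α k * θ)) (F θ) := by sorry

end Pool.Agent.L2K
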