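import Pool.Agent.P.MP_2f6447_an.M.SecG
import Pool.Agent.P.MP_2f6447_an.M.Sine
import Pool.Agent.P.MP_2f6447_an.K.Mean
import Pool.Agent.P.MP_2f6447_an.K.HelmD

/-! Values and gradients along rays. Hints. `grad_close`: for a unit vector `e`, `|D e f| ≤ 8 M / s` on
`closedBall p (s / 2)` (`grad_est`), `D e f` is a solution (`Helm.of_D`), so its gradient is at most
`128 M / s ^ 2` on `closedBall p (s / 4)`; mean value theorem for the difference quotients of `f`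
and `g` with step `t e` (as in `Limit_quot`); take `e` in the direction of the difference.
`SecD.grad_ray`: compare with `g z = re (-I c z ^ (b : ℂ))`, harmonic on `slitPlane`
(`helm_re_of_analytic`), `g (r exp (θ I)) = c r ^ b sin (b θ)`, `dot (grad g z) e = re (F' z * e)`.
At `p = r exp (θ I)` take `s = κ r` with `κ = min (sin θ) (sin (α - θ)) / 2` (`sec_ball`),
`M = C₁ r ^ b`, `ε = C₂ r ^ (b + 1)`, `t = r √r`; the error is `O (r ^ (b - 1 / 2))`.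
`SecD.rays`: `θ = 3 π / (4 b) = 3 α / (4 k)`, `θ₀ = (π - α) / 2`, `a = exp ((θ₀ + θ) I)`,
`0 < θ₀ + θ < π / 2`; `rot α * (r a) = r exp (θ I)`; `rf 0 1 a = exp ((π - θ₀ - θ) I)` and
`rot α * (r * rf 0 1 a) = r exp ((α - θ) I)`; `grad_sim`, `ψ = -θ₀`; the limits are positive
multiples of `sin (3 π / 4)` and of `± sin (3 π / 4 - θ₀ - θ)`; `T w / r ^ (b - 1)` tends to `0`. -/

open Set MeasureTheory Filter Topology Complex Metric
open scoped ContDiff ComplexConjugate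

namespace Pool.Agent.L2K

variable {Ω Ω' U : Set ℂ} {O : ℕ → Set ℂ} {lam α R c : ℝ} {u v w f g : ℂ → ℝ} {k : ℕ}

theorem grad_close {μ : ℝ} (hf : Helm lam U f) (hg : Helm μ U g) (hl : 0 ≤ lam) (hμ : 0 ≤ μ)
    {p : ℂ} {s M ε t : ℝ} (hs : 0 < s) (hU : closedBall p s ⊆ U) (h1 : lam * s ^ 2 ≤ 1)
    (h2 : μ * s ^ 2 ≤ 1) (hM : ∀ z ∈ closedBall p s, |f z| ≤ M ∧ |g z| ≤ M)
    (he : ∀ z ∈ closedBall p s, |f z - g z| ≤ ε) (ht0 : 0 < t) (ht : t ≤ s / 4) :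
    ‖grad f p - grad g p‖ ≤ 2 * ε / t + 256 * M * t / s ^ 2 := by sorry
theorem Ld.val (h : Ld α w k c) {θ : ℝ} (hθ : θ ∈ Icc 0 α) :
    Tendsto (fun r : ℝ => w (r * exp (θ * I)) / r ^ ex α k) (𝓝[>] 0)
      (𝓝 (c * Real.sin (ex α k * θ))) := by sorry
theorem SecD.grad_ray (h : SecD α R lam w) (hL : Ld α w k c) {θ : ℝ} (hθ : θ ∈ Ioo 0 α) (ψ : ℝ) :
    Tendsto (fun r : ℝ => dot (grad w (r * exp (θ * I))) (exp (ψ * I)) / r ^ (ex α k - 1))
      (𝓝[>] 0) (𝓝 (c * ex α k * Real.sin ((ex α k - 1) * θ + ψ))) := by sorry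
theorem SecD.rays (h : SecD α R lam w) (hL : Ld α w k c) (hc : 0 < c) (hk : Odd k) (h3 : 3 ≤ k)
    (hΩ : ∀ᶠ z in 𝓝 (0 : ℂ), rot α * z ∈ Sec α → z ∈ Ω) : ∃ a : ℂ, 0 < a.re ∧ 0 < a.im ∧
      Ray Ω (fun z => w (sim 0 (rot α) z)) 1 a ∧
      Ray Ω (fun z => w (sim 0 (rot α) z)) (-1) (rf 0 1 a) := by sorry

end Pool.Agent.L2K
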