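import Pool.Agent.P.MP_2f6447_an.M.Unif

/-! Stability of the closed configuration. Hints. `SC.exists_pos`, `SC.not_neg`: a nonempty bounded
open subset of the plane is not contained in a compact subset of itself (it would be clopen).
`sc_of_local`: `K = closure Ω` minus an open neighbourhood of the frontier. `Conv.sc_open`: `K₀`
from `SC Ω v`, `K₁ = cthickening δ K₀ ⊆ Ω`; `v ≥ m > 0` on `frontier K₁`, `v x₀ < 0` for some
`x₀ ∈ K₀` (`Eig.exists_neg`). For large `k`: `K₁ ⊆ O k` (`Conv.fill`), `F k > 0` on `frontier K₁`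
(uniform convergence; `lip_tendsto_unif`), `F k x₀ < 0`; the preconnected set `{F k < 0}` misses
`frontier K₁`, so it lies in `interior K₁`; a zero of `F k` in `O k` outside `K₁` is excluded by
`both_signs`. `Conv.persist`: `exists_eig`, `Conv.compact`, `v = c u` with `c ≠ 0`; if `c < 0` use
`-F`. -/

open Set MeasureTheory Filter Topology Complex Metric
open scoped ContDiff ComplexConjugate

namespace Pool.Agent.L2K

variable {Ω Ω' U : Set ℂ} {O : ℕ → Set ℂ} {lam α R c : ℝ} {u v w f g : ℂ → ℝ} {k : ℕ}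

theorem SC.exists_pos (hΩ : Dom Ω) (h : SC Ω u) : ∃ z ∈ Ω, 0 < u z := by sorry
theorem SC.not_neg (hΩ : Dom Ω) (h : SC Ω u) : ¬ SC Ω fun z => -u z := by sorry
theorem SC.smul (h : SC Ω u) (hc : 0 < c) : SC Ω fun z => c * u z := by sorry
theorem SC.of_sim (h : SC Ω u) (p : ℂ) {a : ℂ} (ha : a ≠ 0) :
    SC (sim p a ⁻¹' Ω) fun z => u (sim p a z) := by sorry
theorem SC.of_rf (h : SC Ω u) (M : ℂ) {n : ℂ} (hn : ‖n‖ = 1) (hs : rf M n ⁻¹' Ω = Ω) :
    SC Ω fun z => u (rf M n z) := by sorry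
theorem sc_of_local (hΩ : Dom Ω) (h : ∀ p ∈ frontier Ω, ∀ᶠ z in 𝓝 p, z ∈ Ω → 0 < u z) :
    SC Ω u := by sorry
theorem Conv.sc_open (h : Conv Ω O) {K : NNReal} {F : ℕ → ℂ → ℝ} (hE : ∀ k, Eig (O k) (F k))
    (hK : ∀ k, LipschitzWith K (F k)) (hv : Eig Ω v)
    (hc : ∀ z, Tendsto (fun k => F k z) atTop (𝓝 (v z))) (hs : SC Ω v) :
    ∀ᶠ k in atTop, SC (O k) (F k) := by sorry
theorem Conv.persist (h : Conv Ω O) (hu : Eig Ω u) (hs : SC Ω u) (h1 : Simple Ω u) :
    ∃ k w, Eig (O k) w ∧ SC (O k) w := by sorry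

end Pool.Agent.L2K
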