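import Pool.Agent.P.MP_2f6447_an.M.Tame
import Pool.Agent.P.MP_2f6447_an.M.SecR
import Pool.Agent.P.MP_2f6447_an.M.Reach2
import Pool.Agent.P.MP_2f6447_an.M.Stab

/-! No touching in a polygon; simplicity. Hints. `key_pt`: sector data `(ρ, α, a)` at `p`,
`w = u ∘ sim p a`, `Eig.secD`, `SecD.lead`. First case: `uc` gives `u = 0`. Second case:
`side_flat0`, `side_flat1`, `nnat_sim`, `Ld.sign`; for `k = 1` use `Ld.pos`; for `k ≥ 3` pass to
`sim p (a * rot α) ⁻¹' Ω` (`Poly.of_sim`, `Eig.of_sim`, `NN.of_sim`, `Poly.tame`), which lies in the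
upper half plane (`sec_global`, `im_pos_of_rot`); `SecD.rays`, `Tame.fork_false`. `Poly.simple`: if
`v` is not a multiple of `u`, no `f θ = cos θ u + sin θ v` vanishes identically; the set of `θ` with
`SC Ω (f θ)` is open (`Conv.const`, `Conv.sc_open` along sequences), closed (`SC.nn`, `nn_limit`
with constant `q`, `Poly.key`), contains `0`, hence `π`, against `SC.not_neg`. -/

open Set MeasureTheory Filter Topology Complex Metric
open scoped ContDiff ComplexConjugate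

namespace Pool.Agent.L2K

variable {Ω Ω' U : Set ℂ} {O : ℕ → Set ℂ} {lam α R c : ℝ} {u v w f g : ℂ → ℝ} {k : ℕ}

theorem Poly.key_pt (h : Poly Ω) (hu : Eig Ω u) (hne : ∃ z, u z ≠ 0) (hn : NN Ω u) {p : ℂ}
    (hp : p ∈ frontier Ω) : ∀ᶠ z in 𝓝 p, z ∈ Ω → 0 < u z := by sorry
theorem Poly.key (h : Poly Ω) (hu : Eig Ω u) (hne : ∃ z, u z ≠ 0) (hn : NN Ω u) : SC Ω u := by
  sorry
theorem Poly.simple (h : Poly Ω) (h0 : (0 : ℂ) ∈ Ω) (hu : Eig Ω u) (hs : SC Ω u) : Simple Ω u := by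
  sorry

end Pool.Agent.L2K
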