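import Pool.Agent.P.MP_2f6447_an.M.SecG
import Pool.Agent.P.MP_2f6447_an.M.Flat

/-! Polygons. Hints. `exists_net`: `finite_cover_balls_of_compact` for the unit circle, add the mirror
images (`rf_rf`, `isometry_rf`). `pol_dom`: for `z ≠ 0` pick `ν ∈ N` with `‖z / ‖z‖ - ν‖ ≤ 1 / 2`,
then `‖z‖ / 2 ≤ dot z ν`. `pol_poly`: at a frontier point all constraints hold with `≤`, the set `J`
of active ones is not empty, the others hold strictly in a ball; `cone_sector` with `q = -p`.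
`pol_flat`: an active normal `μ` satisfies `dot x μ < 0` whenever `dot x ν < 0`, so `μ = ν`
(`Flat.unique`); `q k = p + (H k ν - h ν) ν`. `pol_conv`: `e k = min 1 (∑ ν ∈ N, |H k ν - h ν| /
min (h ν) (H k ν))`. `pol_approx`: `H ν = sSup` of `dot · ν` on `Ω`; `ball 0 r ⊆ Ω ⊆ ball 0 B`,
`η ≤ 1 / 2`; `Ω ⊆ pol` since `Ω` is open; if `z ∈ pol` and `x = (1 - e) z ∉ Ω`, take `μ` from
`Dom.exists_sep` and `ν ∈ N` close to it: `r ≤ H μ ≤ (1 - e) dot z μ`, `‖z‖ ≤ 2 B`,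
`dot z μ ≤ H μ + 3 B η`, so `e r ≤ 3 B η`; choose `η k` with `3 B η k < r / (k + 2)`. -/

open Set MeasureTheory Filter Topology Complex Metric
open scoped ContDiff ComplexConjugate

namespace Pool.Agent.L2K

variable {Ω Ω' U : Set ℂ} {O : ℕ → Set ℂ} {lam α R c : ℝ} {u v w f g : ℂ → ℝ} {k : ℕ}

variable {η : ℝ} {N : Finset ℂ} {h : ℂ → ℝ}

theorem exists_net (h0 : 0 < η) (h1 : η ≤ 1 / 2) : ∃ N, Net η N := by sorry
theorem zero_mem_pol (hh : ∀ ν ∈ N, 0 < h ν) : (0 : ℂ) ∈ pol N h := by sorry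
theorem pol_dom (hN : Net η N) (hh : ∀ ν ∈ N, 0 < h ν) : Dom (pol N h) := by sorry
theorem pol_poly (hN : Net η N) (hh : ∀ ν ∈ N, 0 < h ν) : Poly (pol N h) := by sorry
theorem pol_sym (hN : Net η N) : rf 0 1 ⁻¹' pol N (fun _ => 1) = pol N fun _ => 1 := by sorry
theorem pol_flat (hN : Net η N) (hh : ∀ ν ∈ N, 0 < h ν) {H : ℕ → ℂ → ℝ}
    (hH : ∀ ν ∈ N, Tendsto (fun k => H k ν) atTop (𝓝 (h ν))) {p ν : ℂ} (hf : Flat (pol N h) p ν) :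
    ∃ (ρ : ℝ) (q : ℕ → ℂ), 0 < ρ ∧ Tendsto q atTop (𝓝 p) ∧
      ∀ᶠ k in atTop, ∀ z ∈ ball (q k) ρ, z ∈ pol N (H k) ↔ dot (z - q k) ν < 0 := by sorry
theorem pol_conv (hN : Net η N) (hh : ∀ ν ∈ N, 0 < h ν) {H : ℕ → ℂ → ℝ}
    (hp : ∀ k, ∀ ν ∈ N, 0 < H k ν) (hH : ∀ ν ∈ N, Tendsto (fun k => H k ν) atTop (𝓝 (h ν))) :
    Conv (pol N h) fun k => pol N (H k) := by sorry
theorem pol_approx (hΩ : Dom Ω) (h0 : (0 : ℂ) ∈ Ω) :
    ∃ (η : ℕ → ℝ) (N : ℕ → Finset ℂ) (H : ℕ → ℂ → ℝ), (∀ k, Net (η k) (N k)) ∧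
      (∀ k, ∀ ν ∈ N k, 0 < H k ν) ∧ Conv Ω fun k => pol (N k) (H k) := by sorry

end Pool.Agent.L2K
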