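import Pool.Agent.P.MP_2f6447_an.M.Key
import Pool.Agent.P.MP_2f6447_an.M.Pol
import Pool.Agent.P.MP_2f6447_an.K.Sign
import Pool.Agent.P.MP_2f6447_an.K.ExtG

/-! The deformation argument. Hints. `closed_step`: normalise (`Eig.normalise`, `SC.smul`), `pol_conv`,
`Conv.compact`, `pol_flat` and `nn_limit` along the subsequence, `Poly.key`. `not_sc_one`:
`u ∘ rf 0 1 = c u` (`Poly.simple`, `pol_sym`), `c ^ 2 = 1`, `c = -1` contradicts `SC.not_neg`;
`Tame.payne`. `pol_not_sc`: `H t ν = (1 - t) h ν + t`; the set of `t ∈ [0, 1]` with a closed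
configuration is closed (`closed_step`) and its complement in `[0, 1]` is closed (`pol_conv`,
`Poly.simple`, `Conv.persist`); `isPreconnected_Icc`. `melas`: translate a point of `Ω` to `0`,
`pol_approx`, `Conv.persist`. `Mn.simple`: at a point from `Dom.exists_ext` every normalised
eigenfunction has gradient limit `± nu` (`Mn.lim_ext`, `Eig.sq_pos`); the normalised difference
would have limit `0`. `Mn.not_closed`: `Mn.pos_near`, `sc_of_local`. -/

open Set MeasureTheory Filter Topology Complex Metric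
open scoped ContDiff ComplexConjugate

namespace Pool.Agent.L2K

variable {Ω Ω' U : Set ℂ} {O : ℕ → Set ℂ} {lam α R c : ℝ} {u v w f g : ℂ → ℝ} {k : ℕ}

variable {η : ℝ} {N : Finset ℂ} {h : ℂ → ℝ}

theorem closed_step (hN : Net η N) (hh : ∀ ν ∈ N, 0 < h ν) {H : ℕ → ℂ → ℝ}
    (hp : ∀ k, ∀ ν ∈ N, 0 < H k ν) (hH : ∀ ν ∈ N, Tendsto (fun k => H k ν) atTop (𝓝 (h ν)))
    (hs : ∀ k, ∃ w, Eig (pol N (H k)) w ∧ SC (pol N (H k)) w) :
    ∃ w, Eig (pol N h) w ∧ SC (pol N h) w := by sorry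
theorem not_sc_one (hN : Net η N) (hu : Eig (pol N fun _ => 1) u) : ¬ SC (pol N fun _ => 1) u := by
  sorry
theorem pol_not_sc (hN : Net η N) (hh : ∀ ν ∈ N, 0 < h ν) (hu : Eig (pol N h) u) :
    ¬ SC (pol N h) u := by sorry
theorem melas (hΩ : Dom Ω) (hu : Eig Ω u) (h1 : Simple Ω u) : ¬ SC Ω u := by sorry
theorem Mn.eig (h : Mn Ω lam u) : Eig Ω u := by sorry
theorem Mn.simple (h : Mn Ω lam u) : Simple Ω u := by sorry
theorem Mn.not_sc (h : Mn Ω lam u) : ¬ SC Ω u := by sorry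
theorem Mn.not_closed (h : Mn Ω lam u) :
    ¬ ∀ p ∈ frontier Ω, dot (Gr Ω u p) (nu Ω p) < 0 := by sorry

end Pool.Agent.L2K
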