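import Pool.Agent.P.MP_2f6447_an.M.Defs

/-! The radial equation with a real exponent. Hints. Put `F r = a r * r ^ (-b)` and
`p r = r ^ b * (r * a1 r) - b * r ^ b * a r`; then `p' = -lam r ^ (b + 1) a` and
`F' = r ^ (-2 b - 1) p`. So `p r + lam ∫ s in 0..r, s ^ (b + 1) a s` is a constant `κ`. If `0 < κ`
then `p ≥ κ / 2` near `0`, `F r₀ - F r ≥ κ / (4 b) (r ^ (-2 b) - r₀ ^ (-2 b))` and `a` is unbounded
(apply the same to `-a`); so `κ = 0`. Bootstrap: if `|a r| ≤ N r ^ γ` with `0 ≤ γ ≤ b` on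
`(0, r₀]` then `|F' s| ≤ lam N s ^ (γ + 1 - b) / (γ + b + 2)`, which gives the same bound with
`min b (γ + 1)` in place of `γ` (use `s ^ (γ' - b) ≤ r ^ (γ' - b)` for `r ≤ s`); induction gives
`|F| ≤ N` on `(0, r₀]`. With `N r` the supremum of `|F|` on `(0, r]`: `|F' s| ≤ lam (N r) s / 4`,
so `|F x - F y| ≤ lam (N r) r ^ 2 / 8` on `(0, r]`, the limit `c` at `0` exists (Cauchy; or `F` is
Lipschitz), `N r ≤ |c| + N r / 8`, `|F r - c| ≤ lam r ^ 2 |c| / 7`. -/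

open Set MeasureTheory Filter Topology Complex Metric
open scoped ContDiff ComplexConjugate

namespace Pool.Agent.L2K

variable {Ω Ω' U : Set ℂ} {O : ℕ → Set ℂ} {lam α R c : ℝ} {u v w f g : ℂ → ℝ} {k : ℕ}

theorem ode_lead {b : ℝ} (hb : 1 ≤ b) (hl : 0 ≤ lam) (hR : lam * R ^ 2 ≤ 1) {a a1 : ℝ → ℝ}
    (h : ∀ r ∈ Ioo 0 R, HasDerivAt a (a1 r) r ∧
      HasDerivAt (fun s => s * a1 s) ((b ^ 2 / r - lam * r) * a r) r)
    (hC : ∃ C, ∀ r ∈ Ioo 0 R, |a r| ≤ C) :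
    ∃ c : ℝ, ∀ r ∈ Ioo 0 R, |a r - c * r ^ b| ≤ lam * r ^ 2 / 4 * (|c| * r ^ b) := by sorry

end Pool.Agent.L2K
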