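import Pool.Agent.P.MP_2f6447_an.M.Eig
import Pool.Agent.P.MP_2f6447_an.K.CLG

/-! The translation trick, first part. Hints. `helm_Wt`: `Helm.of_D 1`, `Helm.congr`. `Tame.ne`: if
`u = 0` then `Gr = 0` on `Ω`, hence on the closure, against `side`. `two_zd`: `Wt (-1) (-t) = -Wt 1
t`; `two_domains` with `V = Ω`; `F` is continuous, zero outside `Ω`, equal to `c Wt` on `Ω`, so
`Wt 1 t p = 0` at the point from `side 1`, where `u p = 0`. `reach_or`: `ray_pos`, `cmp_alt` twice.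
`reach_open`: replace `r` by `min r r₁` (`ray_pos` with `T = |t₀| + 1`; the segment lies in the same
component); shrink `ρ` so that `Wt t₀ ≥ m > 0` on `Ω ∩ ball p ρ`; join the ray point to a point of
`Ω ∩ ball p ρ` by a path in the component (`cmp_path`), on its compact range `Wt t₀ ≥ m' > 0`;
`|Wt t - Wt t₀| ≤ |t - t₀| sup |u|`; range of the path and `Ω ∩ ball p ρ` form a preconnected
subset of the new set. `reach_large`: `p` from `side σ`, `ν = nu Ω p`, `σ re ν < 0` (`fr`),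
`0 < σ re Gr` on `closure Ω ∩ ball p ρ`. From `z₀ ∈ Ω` close to `p` go in the direction `-σ` to the
frontier point `p'`; it is reached after a length at most `‖z₀ - p‖ / |re ν|`, so the segment stays
in the ball; on `(p', z₀]` (in `Ω` by `Dom.combo_mem`) `u` increases from `0`, so `Wt t > 0` there
for all `t ≥ 0`. Join a ray point to `z₀` by a path in the open preconnected set `{0 < u}`; on its
range `u ≥ m > 0` and `|Gr| ≤ K`; take `t > K / m`. A small `Ω ∩ ball p' ρ'` lies in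
`{0 < Wt t}`, is convex and meets the segment. -/

open Set MeasureTheory Filter Topology Complex Metric
open scoped ContDiff ComplexConjugate

namespace Pool.Agent.L2K

variable {Ω Ω' U : Set ℂ} {O : ℕ → Set ℂ} {lam α R c : ℝ} {u v w f g : ℂ → ℝ} {k : ℕ}

variable {σ t : ℝ} {a a' : ℂ}

theorem Tame.helm_Wt (h : Tame Ω u) (σ t : ℝ) : Helm (lam2c Ω) Ω (Wt Ω u σ t) := by sorry
theorem Tame.cont_Wt (h : Tame Ω u) (σ t : ℝ) : ContinuousOn (Wt Ω u σ t) (closure Ω) := by sorry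
theorem Tame.exists_ne (h : Tame Ω u) : ∃ z, u z ≠ 0 := by sorry
theorem Tame.two_zd (h : Tame Ω u) {z x : ℂ} (hz : z ∈ Ω) (hz' : 0 < Wt Ω u 1 t z) (hx : x ∈ Ω)
    (hx' : 0 < Wt Ω u (-1) (-t) x)
    (h1 : ∀ p ∈ frontier (connectedComponentIn {y | y ∈ Ω ∧ 0 < Wt Ω u 1 t y} z), Wt Ω u 1 t p = 0)
    (h2 : ∀ p ∈ frontier (connectedComponentIn {y | y ∈ Ω ∧ 0 < Wt Ω u (-1) (-t) y} x),
      Wt Ω u (-1) (-t) p = 0) : False := by sorry
theorem Tame.ray_pos (h : Tame Ω u) (hr : Ray Ω u σ a) (T : ℝ) : ∃ r : ℝ, 0 < r ∧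
    ∀ s ∈ Ioc (0 : ℝ) r, s * a ∈ Ω ∧ 0 < u (s * a) ∧ ∀ t, |t| ≤ T → 0 < Wt Ω u σ t (s * a) := by
  sorry
theorem Tame.reach_or (h : Tame Ω u) (h1 : Ray Ω u 1 a) (h2 : Ray Ω u (-1) a') (t : ℝ) :
    Reach Ω u 1 a t ∨ Reach Ω u (-1) a' (-t) := by sorry
theorem Tame.reach_open (h : Tame Ω u) (hr : Ray Ω u σ a) : IsOpen {t | Reach Ω u σ a t} := by
  sorry
theorem Tame.reach_large (h : Tame Ω u) (hσ : σ = 1 ∨ σ = -1) (hr : Ray Ω u σ a) :
    ∃ t, Reach Ω u σ a t := by sorry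

end Pool.Agent.L2K
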