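import Pool.Agent.P.MP_2f6447_an.M.SecL
import Pool.Agent.P.MP_2f6447_an.K.Mean

/-! Consequences of the expansion. Hints. `Ld.pos`: `w ≥ (c - C r) r ^ b sin (b θ)`. `Ld.sign`: at
`z = s exp (θ I)` one has `‖z - s‖ ≤ s θ`, so `-(ε s θ) ≤ c s ^ b sin (b θ) + C s ^ (b + 1) b₁ θ`
for small `θ > 0`; divide by `θ`, let `θ`, `ε`, `s` tend to `0`: `0 ≤ c`. At `θ = α - τ`:
`sin (b (α - τ)) = (-1) ^ (k + 1) sin (b τ)` and `sin (b₁ (α - τ)) = sin (b₁ τ)` (`ex_mul_self`).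
`SecD.corner`: `SecD.lead`; in the second case `|w y| ≤ C' ‖y‖ ^ (b - 1) δ y` near `0` in the
sector, `δ y = min (im y) (im (exp (α I) conj y))` (`abs_sin_ex_le`, `sec_weight`), `b > 1`; `δ` is
`1`-Lipschitz and at most `‖y‖`; `grad_est` on the closed ball of radius `δ z / 2` about `z`
(`sec_ball`) gives `‖grad w z‖ ≤ 12 C' (2 ‖z‖) ^ (b - 1)`. -/

open Set MeasureTheory Filter Topology Complex Metric
open scoped ContDiff ComplexConjugate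

namespace Pool.Agent.L2K

variable {Ω Ω' U : Set ℂ} {O : ℕ → Set ℂ} {lam α R c : ℝ} {u v w f g : ℂ → ℝ} {k : ℕ}

theorem Ld.pos (h0 : 0 < α) (h1 : α ≤ Real.pi) (h : Ld α w 1 c) (hc : 0 < c) :
    ∀ᶠ z in 𝓝 (0 : ℂ), z ∈ Sec α → 0 < w z := by sorry
theorem Ld.sign (h0 : 0 < α) (h1 : α ≤ Real.pi) (h : Ld α w k c)
    (n0 : ∀ᶠ s : ℝ in 𝓝[>] 0, NNat w s) (n1 : ∀ᶠ s : ℝ in 𝓝[>] 0, NNat w (s * exp (α * I))) :
    0 < c ∧ Odd k := by sorry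
theorem SecD.corner (h : SecD α R lam w) (hα : α < Real.pi) :
    Tendsto (grad w) (𝓝[Sec α] 0) (𝓝 0) := by sorry

end Pool.Agent.L2K
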