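import Pool.Agent.P.MP_2f6447_an.M.Defs
import Pool.Agent.P.MP_2f6447_an.K.Basic

/-! Geometry of sectors. Hints. For `w = r exp (θ I)` the two conditions are `0 < r sin θ` and
`0 < r sin (α - θ)`. `sec_flat0`: if `α < π` the second condition holds near `s`
(`sin α > 0`), if `α = π` use `sec_pi`. `sec_weight`: with `m = min θ (α - θ) ≤ π / 2` both sines
are at least `sin m ≥ 2 m / π`, and `sin (π θ / α) ≤ π m / α`. `cone_sector`: rotate so that `q` is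
a positive real number; then `re ν < 0` on `J`, the condition for `ν` reads `y * m ν < x` with
`m ν = im ν / (- re ν)`, and only the largest and the smallest `m ν` matter; write these two as
cotangents (or use `arctan`), take `a` on the lower boundary ray. -/

open Set MeasureTheory Filter Topology Complex Metric
open scoped ContDiff ComplexConjugate

namespace Pool.Agent.L2K

variable {Ω Ω' U : Set ℂ} {O : ℕ → Set ℂ} {lam α R c : ℝ} {u v w f g : ℂ → ℝ} {k : ℕ}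

theorem isOpen_sec (α : ℝ) : IsOpen (Sec α) := by sorry
theorem convex_sec (α : ℝ) : Convex ℝ (Sec α) := by sorry
theorem mul_mem_sec {t : ℝ} (ht : 0 < t) (z : ℂ) : (t : ℂ) * z ∈ Sec α ↔ z ∈ Sec α := by sorry
theorem sec_pi : Sec Real.pi = {z : ℂ | 0 < z.im} := by sorry
theorem polar_im (r θ : ℝ) : ((r : ℂ) * exp (θ * I)).im = r * Real.sin θ := by sorry
theorem polar_im' (α r θ : ℝ) :
    (exp (α * I) * conj ((r : ℂ) * exp (θ * I))).im = r * Real.sin (α - θ) := by sorry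
theorem polar_mem_sec (h1 : α ≤ Real.pi) {r θ : ℝ} (hr : 0 < r) (hθ : θ ∈ Icc 0 α) :
    (r : ℂ) * exp (θ * I) ∈ Sec α ↔ θ ∈ Ioo 0 α := by sorry
theorem sec_polar (h0 : 0 < α) (h1 : α ≤ Real.pi) {z : ℂ} (hz : z ∈ Sec α) :
    ∃ θ ∈ Ioo 0 α, 0 < ‖z‖ ∧ z = (‖z‖ : ℝ) * exp (θ * I) := by sorry
theorem sec_flip (α : ℝ) (z : ℂ) : exp (α * I) * conj z ∈ Sec α ↔ z ∈ Sec α := by sorry
theorem sec_flat0 (h0 : 0 < α) (h1 : α ≤ Real.pi) {s : ℝ} (hs : 0 < s) :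
    Flat (Sec α) s (-I) := by sorry
theorem sec_flat1 (h0 : 0 < α) (h1 : α ≤ Real.pi) {s : ℝ} (hs : 0 < s) :
    Flat (Sec α) (s * exp (α * I)) (I * exp (α * I)) := by sorry
theorem sec_ball {z : ℂ} : ball z (min z.im (exp (α * I) * conj z).im) ⊆ Sec α := by sorry
theorem sec_weight (h0 : 0 < α) (h1 : α ≤ Real.pi) {r θ : ℝ} (hr : 0 < r) (hθ : θ ∈ Icc 0 α) :
    r * Real.sin (ex α 1 * θ) ≤
      Real.pi ^ 2 / (2 * α) * min (r * Real.sin θ) (r * Real.sin (α - θ)) := by sorry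
theorem norm_rot (α : ℝ) : ‖rot α‖ = 1 := by sorry
theorem im_pos_of_rot (h0 : 0 < α) (h1 : α ≤ Real.pi) {z : ℂ} (hz : rot α * z ∈ Sec α) :
    0 < z.im := by sorry
theorem cone_sector {J : Finset ℂ} (hJ : J.Nonempty) (hu : ∀ ν ∈ J, ‖ν‖ = 1) {q : ℂ}
    (hq : ∀ ν ∈ J, dot q ν < 0) : ∃ (α : ℝ) (a : ℂ), 0 < α ∧ α ≤ Real.pi ∧ ‖a‖ = 1 ∧
      ∀ z : ℂ, (∀ ν ∈ J, dot (a * z) ν < 0) ↔ z ∈ Sec α := by sorry

end Pool.Agent.L2K
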