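import Pool.Agent.P.MP_2f6447_an.M.SecO
import Pool.Agent.P.MP_2f6447_an.M.Ode

/-! The leading term at the vertex of a sector. Hints. For `j ≥ 1`, `ode_lead` gives `c j` with
`|sc j r - c j r ^ b j| ≤ lam r ^ 2 / 4 |c j| r ^ b j`, `b j = ex α j`; `sc 0 = 0`. At `r₀ = R / 2`
(or any `r₀ < R`): `3 / 4 |c j| r₀ ^ b j ≤ M`, so `|sc j r| ≤ 2 M (r / r₀) ^ b j ≤ 2 M (r / r₀) ^ j`
for `r ≤ r₀` (`b j ≥ j`). If all `c j` vanish, `sine_series` gives `w = 0` on all arcs of radius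
`< R` (`sec_polar`; outside the sector `SecD.zero`). Otherwise let `k` be the least index with
`c k ≠ 0` (`Nat.find`), `c = 2 / α * c k`, `ρ = min 1 (r₀ / 2)`. In the series the terms `j < k`
vanish, the term `k` differs from the leading term by at most
`2 / α * lam r ^ 2 / 4 |c k| r ^ b k * k sin (b 1 θ)` (`abs_sin_ex_le`), and for `j = k + 1 + i`:
`b j ≥ b k + 1 + i`, `(r / r₀) ^ b j ≤ (r / r₀) ^ (b k + 1) 2 ^ (-i)`, the sum of
`(k + 1 + i) 2 ^ (-i)` is finite. -/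

open Set MeasureTheory Filter Topology Complex Metric
open scoped ContDiff ComplexConjugate

namespace Pool.Agent.L2K

variable {Ω Ω' U : Set ℂ} {O : ℕ → Set ℂ} {lam α R c : ℝ} {u v w f g : ℂ → ℝ} {k : ℕ}

theorem SecD.lead (h : SecD α R lam w) :
    (∀ z ∈ ball (0 : ℂ) (R / 2), w z = 0) ∨ ∃ k c, Ld α w k c := by sorry

end Pool.Agent.L2K
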