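import Pool.Agent.P.MP_2f6447_an.M.SecG
import Pool.Agent.P.MP_2f6447_an.M.Sine
import Pool.Agent.P.MP_2f6447_an.K.Polar

/-! The sine coefficients in a sector solve the radial equation. Hints. Let `K` be a Lipschitz constant,
`w_r = cos θ D 1 w + sin θ D I w` (`Polar_dr`), `a1 r = ∫ θ in 0..α, w_r sin (b θ)`. The first
derivative: `intervalIntegral.hasDerivAt_integral_of_dominated_loc_of_deriv_le` with the bound `2 K`
(`norm_grad_le`, `measurable_grad`; the end point `θ = α` is a null set). The second: for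
`0 < ε < α / 2` the truncated `A ε r = r * ∫ θ in ε..α - ε, w_r sin (b θ)` is differentiable as in
`cf_ode` (everything is continuous on a compact set `[r₁, r₂] × [ε, α - ε]`), with derivative
`((b ^ 2 - lam r ^ 2) * ∫ θ in ε..α - ε, w sin (b θ) - [w_θ sin (b θ) - b w cos (b θ)]) / r`;
`|w_θ| ≤ 2 K r`, `|sin (b ε)| ≤ b ε`, `|sin (b (α - ε))| ≤ b ε` (`ex_mul_self`), `|w| ≤ K r ε` at
both ends (`w` vanishes on the sides, `polar_mem_sec`). So the derivatives converge uniformly on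
`(r₁, r₂)`; `hasDerivAt_of_tendstoUniformlyOn` along `ε = α / (n + 3)`. -/

open Set MeasureTheory Filter Topology Complex Metric
open scoped ContDiff ComplexConjugate

namespace Pool.Agent.L2K

variable {Ω Ω' U : Set ℂ} {O : ℕ → Set ℂ} {lam α R c : ℝ} {u v w f g : ℂ → ℝ} {k : ℕ}

theorem SecD.side0 (h : SecD α R lam w) {r : ℝ} (hr : r ∈ Ioo 0 R) :
    w (r * exp ((0 : ℝ) * I)) = 0 := by sorry
theorem SecD.side1 (h : SecD α R lam w) {r : ℝ} (hr : r ∈ Ioo 0 R) :
    w (r * exp (α * I)) = 0 := by sorry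
theorem SecD.sc_bound (h : SecD α R lam w) :
    ∃ M : ℝ, 0 ≤ M ∧ ∀ k, ∀ r ∈ Ioo 0 R, |sc w α k r| ≤ M := by sorry
theorem SecD.ode (h : SecD α R lam w) (k : ℕ) : ∃ a1 : ℝ → ℝ, ∀ r ∈ Ioo 0 R,
    HasDerivAt (sc w α k) (a1 r) r ∧
      HasDerivAt (fun s => s * a1 s) ((ex α k ^ 2 / r - lam * r) * sc w α k r) r := by sorry

end Pool.Agent.L2K
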