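import Pool.Agent.P.MP_2f6447_an.M.SecC
import Pool.Agent.P.MP_2f6447_an.M.Flat
import Pool.Agent.P.MP_2f6447_an.M.Eig

/-! Regularity up to the boundary of a polygon. Hints. `Poly.of_sim`: `frontier_sim`; if `(ρ, α, b)`
describes `Ω` at `sim p a z` then `(ρ, α, b / a)` describes the preimage at `z`. `sec_global`:
`Dom.combo_mem`, `mul_mem_sec`. `side_flat0`, `side_flat1`: `sec_flat0`, `sec_flat1`, `Flat.congr`,
`flat_sim`. `Poly.lim`: for `α = π` the point is flat with normal `a * -I` (`sec_pi`), `Flat.lim`,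
`Flat.unique`; for `α < π` use `SecD.corner` and `grad_sim`, the limit is `0`. `Poly.tame`:
`continuousOn_extendFrom`, `extendFrom_eq` (see `Mn.continuousOn_Gr`, `Mn.Gr_eq`). Field `side`:
from `q ∈ Ω` go in the direction `-σ` to a frontier point `p₀`; `p₀ + σ s ∈ Ω` for small `s > 0`,
so `σ s conj a ∈ Sec α` and `σ im a < 0`; the points `p₀ + a s` are flat with normal `a * -I`, whose
real part is `im a`; by `Flat.cauchy` and `Flat.near` the gradient is not zero at one frontier point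
near `p₀ + a ρ / 2`. -/

open Set MeasureTheory Filter Topology Complex Metric
open scoped ContDiff ComplexConjugate

namespace Pool.Agent.L2K

variable {Ω Ω' U : Set ℂ} {O : ℕ → Set ℂ} {lam α R c : ℝ} {u v w f g : ℂ → ℝ} {k : ℕ}

variable {p a : ℂ} {ρ : ℝ}

theorem Poly.of_sim (h : Poly Ω) (p : ℂ) (ha : ‖a‖ = 1) : Poly (sim p a ⁻¹' Ω) := by sorry
theorem sec_global (hΩ : Dom Ω) (hp : p ∈ frontier Ω) (hρ : 0 < ρ)
    (hs : ∀ z : ℂ, ‖z‖ < ρ → (sim p a z ∈ Ω ↔ z ∈ Sec α)) {z : ℂ} (hz : sim p a z ∈ Ω) :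
    z ∈ Sec α := by sorry
theorem Eig.secD (hu : Eig Ω u) (hρ : 0 < ρ) (h0 : 0 < α) (h1 : α ≤ Real.pi) (ha : ‖a‖ = 1)
    (hs : ∀ z : ℂ, ‖z‖ < ρ → (sim p a z ∈ Ω ↔ z ∈ Sec α)) :
    ∃ R, R ≤ ρ ∧ SecD α R (lam2c Ω) fun z => u (sim p a z) := by sorry
theorem side_flat0 (h0 : 0 < α) (h1 : α ≤ Real.pi) (ha : ‖a‖ = 1)
    (hs : ∀ z : ℂ, ‖z‖ < ρ → (sim p a z ∈ Ω ↔ z ∈ Sec α)) {s : ℝ} (hs' : s ∈ Ioo 0 ρ) :
    Flat Ω (sim p a s) (a * -I) := by sorry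
theorem side_flat1 (h0 : 0 < α) (h1 : α ≤ Real.pi) (ha : ‖a‖ = 1)
    (hs : ∀ z : ℂ, ‖z‖ < ρ → (sim p a z ∈ Ω ↔ z ∈ Sec α)) {s : ℝ} (hs' : s ∈ Ioo 0 ρ) :
    Flat Ω (sim p a (s * exp (α * I))) (a * (I * exp (α * I))) := by sorry
theorem Poly.lim (h : Poly Ω) (hu : Eig Ω u) (hn : NN Ω u) (hp : p ∈ frontier Ω) :
    ∃ y, Tendsto (grad u) (𝓝[Ω] p) (𝓝 y) ∧ ∀ ν, IsN Ω p ν → ∃ γ : ℝ, γ ≤ 0 ∧ y = γ * ν := by sorry
theorem Poly.tame (h : Poly Ω) (hu : Eig Ω u) (hne : ∃ z, u z ≠ 0) (hn : NN Ω u) : Tame Ω u := by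
  sorry

end Pool.Agent.L2K
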