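import Pool.Agent.P.MP_2f6447_an.M.Eig
import Pool.Agent.P.MP_2f6447_an.K.Limit

/-! Uniform Lipschitz bound and compactness. Hints. `unif_lip`: repeat `Reg0_strip`, `Reg0_grad` and the
end of `exists_lip` with constants chosen first: `sub_sup` and `sub_strip` for `max Λ 0` (a
nonnegative subsolution for `μ` is one for `max Λ 0`), `∫ |u| ≤ (1 + area of the ball) / 2` from
`2 |u| ≤ 1 + u ^ 2` on the ball, `Lip0.h10`, `Helm.weak`. `Conv.compact`: `Conv.bdd`,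
`Conv.lam_bdd`, `lip_subseq` for `z ↦ F k (z + R)` (zero at `0`), `helm_limit` with `Conv.lam_lim` and
`Conv.fill`, `Conv.out` and continuity for the zero values, dominated convergence for the norm. -/

open Set MeasureTheory Filter Topology Complex Metric
open scoped ContDiff ComplexConjugate

namespace Pool.Agent.L2K

variable {Ω Ω' U : Set ℂ} {O : ℕ → Set ℂ} {lam α R c : ℝ} {u v w f g : ℂ → ℝ} {k : ℕ}

theorem unif_lip (R Λ : ℝ) : ∃ K : NNReal, ∀ (Ω : Set ℂ) (u : ℂ → ℝ) (μ : ℝ), Dom Ω →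
    Ω ⊆ ball 0 R → Lip0 Ω u → Helm μ Ω u → 0 ≤ μ → μ ≤ Λ → ∫ z, u z ^ 2 = 1 →
    LipschitzWith K u := by sorry
theorem Conv.compact (h : Conv Ω O) {F : ℕ → ℂ → ℝ} (hE : ∀ k, Eig (O k) (F k))
    (h1 : ∀ k, ∫ z, F k z ^ 2 = 1) : ∃ (φ : ℕ → ℕ) (v : ℂ → ℝ) (K : NNReal), StrictMono φ ∧
      Eig Ω v ∧ ∫ z, v z ^ 2 = 1 ∧ (∀ k, LipschitzWith K (F (φ k))) ∧
      ∀ z, Tendsto (fun k => F (φ k) z) atTop (𝓝 (v z)) := by sorry

end Pool.Agent.L2K
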